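import Pool.Agent.NH22.ST.Emp
import Pool.Agent.NH22.ST.Link
import Pool.Agent.NH22.ST.All2

/-!
# The Sato-Tate conjecture for `a_1` up to `C / g ^ (1 / 2)`, for almost all hyperelliptic curves of every genus `g`

There is a constant `C` such that for every genus `g ≥ 1` the first coefficients `a_1(p)` of the normalized Euler factors of almost
all hyperelliptic curves `Y ^ 2 = X ^ (2 g + 1) + m (2 g) X ^ (2 g) + ... + m 0` are equidistributed with respect to the standard
normal law up to `C / g ^ (1 / 2)`, over all sets of primes of a family of polynomial size with at least `n ^ δ` elements among the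
first `n` primes (for instance short intervals and residue classes).

The moments of order at most `2 g` have the expected values; the rest is Esseen's smoothing inequality.
-/

set_option autoImplicit false

namespace Pool.Agent.Results.MP_753a9c_nt.FirstCoefficientSqrtGenus

open Finset MeasureTheory ProbabilityTheory
open Pool.Agent.NH22.ST.Link (a)

open Classical in
/-- The set of the elements of `S` below `n`. -/
noncomputable def below (n : ℕ) (S : Set ℕ) : Finset ℕ := (range n).filter (fun k => k ∈ S)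

/-- For all sets `S ∈ W` (of indices of primes) with at least `n ^ δ` elements below `n` the distribution function of the
coefficients `a_1(p_k)`, `k ∈ S`, `k < n`, differs from the one of the standard normal law by at most `ε`. -/
def Equidistributed (g : ℕ) (ε δ : ℝ) (W : Set (Set ℕ)) (n : ℕ) (m : Fin (2 * g + 1) → ℕ) : Prop :=
  ∀ S ∈ W, (n : ℝ) ^ δ ≤ (below n S).card → ∀ t : ℝ,
    |(((below n S).filter (fun k => a g (Nat.nth Nat.Prime k) m 1 ≤ t)).card : ℝ) / ((below n S).card : ℝ) -
      (gaussianReal 0 1).real (Set.Iic t)| ≤ ε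

/-- The digit number `i` (counted from the right, beginning with `0`) of `n` in base `b`. -/
def digit (b i n : ℕ) : ℕ := n / b ^ i % b

/-- The number which arises from the number `N` with at most `K` digits in base `b`, if for every `i ∈ S`
the digit number `i` is replaced by `f i`. -/
def change (b K N : ℕ) (f : ℕ → ℕ) (S : Finset ℕ) : ℕ :=
  ∑ i ∈ range K, (if i ∈ S then f i else digit b i N) * b ^ i

open Classical in
/-- The number of the choices of `r l` of `K l` positions for all `l` for which the tuple of the numbers obtained by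
changing the digits of the `N l` at the chosen positions (according to `f l`) does not have the property `E`. -/
noncomputable def exceptions {d : ℕ} (b : ℕ) (K r N : Fin d → ℕ) (f : Fin d → ℕ → ℕ) (E : (Fin d → ℕ) → Prop) : ℕ :=
  ((Fintype.piFinset (fun l => powersetCard (r l) (range (K l)))).filter
    (fun S => ¬ E (fun l => change b (K l) (N l) (f l) (S l)))).card

lemma exc_eq {d : ℕ} (b : ℕ) (K r N : Fin d → ℕ) (f : Fin d → ℕ → ℕ) (E : (Fin d → ℕ) → Prop) :
    exceptions b K r N f E = Pool.Agent.Y57.FD.exceptions b K r N f E := rfl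

lemma a_one (g p : ℕ) (hp : p.Prime) (m : Fin (2 * g + 1) → ℕ) : a g p m 1 = Pool.Agent.NH22.ST.Sep2.sf g p m 1 := by
  rw [Pool.Agent.NH22.ST.Link.a_ev g p hp m 1 one_pos, Pool.Agent.NH22.ST.Link.ev_eq, Pool.Agent.NH22.ST.Link.coeffL_eq,
    show (1 : ℕ) = 0 + 1 from rfl, Pool.Agent.NH22.ST.Sep.coeffL_succ _ 0]
  simp [Pool.Agent.NH22.ST.Link.ext, Pool.Agent.NH22.ST.Sep.coeffL_zero]

/-- There is `C > 0` such that for every `g ≥ 1` the following holds. Let a base `b ≥ 2`, `δ > 0` and
integers `A, B ≥ 0` be given. There are `c > 0` and `y₀` such that for all integers `r l`, `K l` (`l = 0, ..., 2 g`), `y` with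
`2 r l ≤ K l` and `y ≥ y₀`:

Let `0 ≤ N l < b ^ K l` be arbitrary integers, prescribe for every position `j` a digit `f l j` different from the digit of
`N l` in base `b`, and let for every `n` an arbitrary set `W n` of at most `n ^ B` sets of positive integers be given. If one chooses
`r l` of the `K l` positions and replaces the digits of `N l` at these positions, then for all but at most a proportion `1 / y ^ A` of
the choices the Jacobian of the curve `Y ^ 2 = X ^ (2 g + 1) + m (2 g) X ^ (2 g) + ... + m 0` of genus `g` with the numbers `m l`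
obtained has the following property: for all integers `n` with `y ≤ n ≤ exp (c r l)` for all `l` and all `S ∈ W n` which have at
least `n ^ δ` elements below `n` the distribution function of the coefficients `a_1(p_k)` (`k < n`, `k ∈ S`) differs everywhere from
the standard normal one by at most `C / g ^ (1 / 2)`. -/
theorem result : ∃ C : ℝ, 0 < C ∧ ∀ g : ℕ, 1 ≤ g →
    ∀ b : ℕ, 2 ≤ b → ∀ δ : ℝ, 0 < δ → ∀ A B : ℕ,
    ∃ c : ℝ, 0 < c ∧ ∃ y₀ : ℕ, ∀ (K r : Fin (2 * g + 1) → ℕ) (y : ℕ), (∀ l, 2 * r l ≤ K l) → y₀ ≤ y →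
    ∀ N : Fin (2 * g + 1) → ℕ, (∀ l, N l < b ^ K l) →
    ∀ f : Fin (2 * g + 1) → ℕ → ℕ, (∀ l j, f l j < b ∧ f l j ≠ digit b j (N l)) →
    ∀ W : ℕ → Set (Set ℕ), (∀ n, (W n).Finite ∧ (W n).ncard ≤ n ^ B) →
      (exceptions b K r N f
        (fun m => ∀ n : ℕ, y ≤ n → (∀ l, (n : ℝ) ≤ Real.exp (c * r l)) →
          Equidistributed g (C / Real.sqrt g) δ (W n) n m) : ℝ) ≤
        1 / (y : ℝ) ^ A * ∏ l, ((K l).choose (r l) : ℝ) := by
  classical
  obtain ⟨C, hC, hQ⟩ := Pool.Agent.NH22.ST.All2.t_QE
  refine ⟨2 * C, by positivity, fun g hg b hb δ hδ A B => ?_⟩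
  have hg0 : (0 : ℝ) < g := by exact_mod_cast hg
  have hsg : 0 < Real.sqrt g := Real.sqrt_pos.2 hg0
  obtain ⟨η, hηd⟩ : ∃ η : ℝ, η = 1 / Real.sqrt g * Real.exp (-Real.sqrt g) := ⟨_, rfl⟩
  have hη : 0 < η := by
    rw [hηd]
    positivity
  obtain ⟨c, hc, y₀, h⟩ := Pool.Agent.NH22.ST.Emp.emp Pool.Agent.NH22.ST.All.t_WEIL Pool.Agent.NH22.ST.All.t_POLY g b hb δ hδ A B η hη
  refine ⟨c, hc, y₀ + 2, fun K r y hrK hy N hN f hf W hW => ?_⟩
  rw [exc_eq]
  refine h K r y hrK (by omega) N hN f hf W hW _ fun m hm n hyn hnr S hS hcard t => ?_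
  have hn1 : (1 : ℝ) ≤ n := by
    have : 1 ≤ n := by omega
    exact_mod_cast this
  have hne : (below n S).Nonempty := by
    rw [← card_pos]
    have h1 : (0 : ℝ) < ((below n S).card : ℝ) := lt_of_lt_of_le (by positivity) hcard
    exact_mod_cast h1
  have key := hQ g (below n S) (fun k => Pool.Agent.NH22.ST.Sep2.sf g (Nat.nth Nat.Prime k) m 1) η hg hne hη.le ?_ t
  · have e1 : (below n S).filter (fun k => a g (Nat.nth Nat.Prime k) m 1 ≤ t) =
        (below n S).filter (fun k => Pool.Agent.NH22.ST.Sep2.sf g (Nat.nth Nat.Prime k) m 1 ≤ t) := by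
      refine filter_congr fun k _ => ?_
      rw [a_one g _ (Nat.prime_nth_prime k) m]
    rw [e1]
    refine key.trans (le_of_eq ?_)
    rw [hηd, mul_assoc (1 / Real.sqrt g), ← Real.exp_add, neg_add_cancel, Real.exp_zero]
    ring
  · intro q hq
    have h1 := hm n hyn hnr S hS hcard (fun j => if (j : ℕ) = 0 then q else 0) (by
      rw [Fin.sum_univ_succ]
      simp
      omega)
    have h2 : ∀ k : ℕ, ∏ j : Fin (2 * g + 1), Pool.Agent.NH22.ST.Sep2.sf g (Nat.nth Nat.Prime k) m ((j : ℕ) + 1) ^
        (if (j : ℕ) = 0 then q else 0) = Pool.Agent.NH22.ST.Sep2.sf g (Nat.nth Nat.Prime k) m 1 ^ q := by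
      intro k
      rw [Fin.prod_univ_succ]
      simp
    have h3 : ∏ j : Fin (2 * g + 1), Pool.Agent.NH22.ST.MM ((j : ℕ) + 1) (if (j : ℕ) = 0 then q else 0) =
        Pool.Agent.NH22.ST.MM 1 q := by
      rw [Fin.prod_univ_succ]
      simp [Pool.Agent.NH22.ST.Sep2.MM_zero]
    rw [h3] at h1
    simp only [h2] at h1
    exact h1

end Pool.Agent.Results.MP_753a9c_nt.FirstCoefficientSqrtGenus
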