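import Pool.Agent.NH22.ST.Emp
import Pool.Agent.NH22.ST.Link
import Pool.Agent.NH22.ST.Tail

/-!
# Gaussian tails of the linear forms in the traces of the powers of Frobenius for almost all hyperelliptic curves of every genus `g`

For almost all hyperelliptic curves `C : Y ^ 2 = X ^ (2 g + 1) + m (2 g) X ^ (2 g) + ... + m 0` and over all sets of primes of a family of
polynomial size with at least `n ^ δ` elements among the first `n` primes, the proportion of the primes `p` for which a linear form in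
the `t_k(p) = (#C(F_{p ^ k}) - (p ^ k + 1)) / p ^ (k / 2)`, `k = 1, ..., d`, exceeds its mean by at least `T` times its standard
deviation lies between `exp (- 48 (T ^ 2 + 1))` and `4 exp (- T ^ 2 / 8)`, for all `T ≥ 0` with `24 d (T ^ 2 + 1) ≤ g`. For `d = 1` this is
a statement on the large values of the first coefficients `a_1(p) = t_1(p)` of the normalized Euler factors, up to the size
`c g ^ (1 / 2)`.
-/

set_option autoImplicit false

namespace Pool.Agent.Results.MP_753a9c_nt.GaussianTails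

open Finset MeasureTheory ProbabilityTheory

/-- The number of the solutions of `Y ^ 2 = X ^ (2 g + 1) + m (2 g) X ^ (2 g) + ... + m 1 X + m 0` in the field with `p ^ k` elements
(the set of the `x` with `x ^ (p ^ k) = x` in an algebraic closure of the field with `p` elements). -/
noncomputable def points (g p k : ℕ) (m : Fin (2 * g + 1) → ℕ) : ℕ :=
  if h : p.Prime then
    haveI : Fact p.Prime := ⟨h⟩
    Nat.card {P : AlgebraicClosure (ZMod p) × AlgebraicClosure (ZMod p) //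
      P.1 ^ (p ^ k) = P.1 ∧ P.2 ^ (p ^ k) = P.2 ∧
      P.2 ^ 2 = P.1 ^ (2 * g + 1) + ∑ i, (m i : AlgebraicClosure (ZMod p)) * P.1 ^ (i : ℕ)}
  else 0

/-- `p` is odd and `X ^ (2 g + 1) + m (2 g) X ^ (2 g) + ... + m 0` is separable modulo `p`, so that the curve of genus `g` with this
equation is smooth modulo `p`. -/
def Smooth (g p : ℕ) (m : Fin (2 * g + 1) → ℕ) : Prop :=
  p ≠ 2 ∧ (Polynomial.X ^ (2 * g + 1) + ∑ i, Polynomial.C (m i : ZMod p) * Polynomial.X ^ (i : ℕ)).Separable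

open Classical in
/-- `(#C(F_{p ^ k}) - (p ^ k + 1)) / p ^ (k / 2)` for the curve `C : Y ^ 2 = X ^ (2 g + 1) + m (2 g) X ^ (2 g) + ... + m 0`, where
`#C(F_{p ^ k}) = points g p k m + 1` (there is one point at infinity); and `0` if the curve is not smooth modulo `p`. -/
noncomputable def trace (g p k : ℕ) (m : Fin (2 * g + 1) → ℕ) : ℝ :=
  if Smooth g p m then (((points g p k m : ℝ) + 1) - ((p : ℝ) ^ k + 1)) / (Real.sqrt p) ^ k else 0

open Classical in
/-- The set of the elements of `S` below `n`. -/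
noncomputable def below (n : ℕ) (S : Set ℕ) : Finset ℕ := (range n).filter (fun k => k ∈ S)

/-- For all sets `S ∈ W` (of indices of primes) with at least `n ^ δ` elements below `n`, all `d ≥ 1`, all real `c 1, ..., c d` which
are not all `0` and all real `T ≥ 0` with `24 d (T ^ 2 + 1) ≤ g` the proportion of the `j ∈ S`, `j < n`, for which
`∑_{k ≤ d} c k t_k(p_j) ≥ ∑_{k ≤ d, k even} c k + T (∑_{k ≤ d} k (c k) ^ 2) ^ (1 / 2)` is at least `exp (- 48 (T ^ 2 + 1))` and at most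
`4 exp (- T ^ 2 / 8)`. -/
def Tails (g : ℕ) (δ : ℝ) (W : Set (Set ℕ)) (n : ℕ) (m : Fin (2 * g + 1) → ℕ) : Prop :=
  ∀ S ∈ W, (n : ℝ) ^ δ ≤ (below n S).card → ∀ d : ℕ, 1 ≤ d → ∀ c : ℕ → ℝ, (∃ k ∈ Icc 1 d, c k ≠ 0) →
    ∀ T : ℝ, 0 ≤ T → 24 * d * (T ^ 2 + 1) ≤ g →
    Real.exp (-(48 * (T ^ 2 + 1))) ≤
      (((below n S).filter (fun j => ∑ k ∈ (Icc 1 d).filter Even, c k + T * Real.sqrt (∑ k ∈ Icc 1 d, k * c k ^ 2) ≤
        ∑ k ∈ Icc 1 d, c k * trace g (Nat.nth Nat.Prime j) k m)).card : ℝ) / ((below n S).card : ℝ) ∧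
    (((below n S).filter (fun j => ∑ k ∈ (Icc 1 d).filter Even, c k + T * Real.sqrt (∑ k ∈ Icc 1 d, k * c k ^ 2) ≤
        ∑ k ∈ Icc 1 d, c k * trace g (Nat.nth Nat.Prime j) k m)).card : ℝ) / ((below n S).card : ℝ) ≤
      4 * Real.exp (-(T ^ 2 / 8))

/-- The digit number `i` (counted from the right, beginning with `0`) of `n` in base `b`. -/
def digit (b i n : ℕ) : ℕ := n / b ^ i % b

/-- The number which arises from the number `N` with at most `K` digits in base `b`, if for every `i ∈ S`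
the digit number `i` is replaced by `f i`. -/
def change (b K N : ℕ) (f : ℕ → ℕ) (S : Finset ℕ) : ℕ :=
  ∑ i ∈ range K, (if i ∈ S then f i else digit b i N) * b ^ i

open Classical in
/-- The number of the choices of `r l` of `K l` positions for all `l` for which the tuple of the numbers obtained by
changing the digits of the `N l` at the chosen positions (according to `f l`) does not have the property `E`. -/
noncomputable def exceptions {d : ℕ} (b : ℕ) (K r N : Fin d → ℕ) (f : Fin d → ℕ → ℕ) (E : (Fin d → ℕ) → Prop) : ℕ :=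
  ((Fintype.piFinset (fun l => powersetCard (r l) (range (K l)))).filter
    (fun S => ¬ E (fun l => change b (K l) (N l) (f l) (S l)))).card

lemma exc_eq {d : ℕ} (b : ℕ) (K r N : Fin d → ℕ) (f : Fin d → ℕ → ℕ) (E : (Fin d → ℕ) → Prop) :
    exceptions b K r N f E = Pool.Agent.Y57.FD.exceptions b K r N f E := rfl

lemma trace_eq (g p : ℕ) (hp : p.Prime) (m : Fin (2 * g + 1) → ℕ) (k : ℕ) (hk : 0 < k) :
    trace g p k m = Pool.Agent.NH22.ST.Sep2.sf g p m k := by
  classical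
  unfold trace Pool.Agent.NH22.ST.Sep2.sf
  by_cases h : p.Prime ∧ p ≠ 2
  · rw [dif_pos h]
    have : Fact p.Prime := ⟨h.1⟩
    by_cases h3 : (Pool.Agent.Y57.FD.HM.pol p (D := 2 * g + 1) (fun i => ((m i : ℕ) : ZMod p))).Separable
    · rw [if_pos h3, if_pos (show Smooth g p m from ⟨h.2, h3⟩)]
      have h4 : (points g p k m : ℝ) = (p : ℝ) ^ k + Pool.Agent.NH22.ST.SS p k (fun i => (m i : ZMod p)) :=
        Pool.Agent.NH22.ST.Link.points_eq g p k hp h.2 hk m
      rw [h4]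
      congr 1
      ring
    · rw [if_neg h3, if_neg (fun h5 : Smooth g p m => h3 h5.2)]
  · rw [dif_neg h, if_neg (fun h5 : Smooth g p m => h ⟨hp, h5.1⟩)]

/-- sums over `1, ..., d` as sums over the coordinates -/
lemma sum_conv (M d : ℕ) (hd : d ≤ M) (F : ℕ → ℝ) :
    ∑ k ∈ Icc 1 d, F k = ∑ j : Fin M, if (j : ℕ) + 1 ≤ d then F ((j : ℕ) + 1) else 0 := by
  rw [Fin.sum_univ_eq_sum_range (fun j => if j + 1 ≤ d then F (j + 1) else 0) M, ← sum_filter]
  refine sum_bij' (fun k _ => k - 1) (fun j _ => j + 1) ?_ ?_ ?_ ?_ ?_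
  · intro k hk
    rw [mem_Icc] at hk
    rw [mem_filter, mem_range]
    omega
  · intro j hj
    rw [mem_filter, mem_range] at hj
    rw [mem_Icc]
    omega
  · intro k hk
    rw [mem_Icc] at hk
    omega
  · intro j hj
    rfl
  · intro k hk
    rw [mem_Icc] at hk
    rw [Nat.sub_add_cancel hk.1]

/-- Let `g ≥ 0`, a base `b ≥ 2`, `δ > 0` and integers `A, B ≥ 0` be given. There are `c > 0` and `y₀` such that for all integers
`r l`, `K l` (`l = 0, ..., 2 g`), `y` with `2 r l ≤ K l` and `y ≥ y₀` the following holds.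

Let `0 ≤ N l < b ^ K l` be arbitrary integers, prescribe for every position `j` a digit `f l j` different from the digit of
`N l` in base `b`, and let for every `n` an arbitrary set `W n` of at most `n ^ B` sets of positive integers be given. If one chooses
`r l` of the `K l` positions and replaces the digits of `N l` at these positions, then for all but at most a proportion `1 / y ^ A` of
the choices the curve `Y ^ 2 = X ^ (2 g + 1) + m (2 g) X ^ (2 g) + ... + m 0` of genus `g` with the numbers `m l` obtained has the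
following property: for all integers `n` with `y ≤ n ≤ exp (c r l)` for all `l`, all `S ∈ W n` which have at least `n ^ δ` elements
below `n`, all `d ≥ 1`, all real `c_1, ..., c_d`, not all `0`, and all `T ≥ 0` with `24 d (T ^ 2 + 1) ≤ g` the linear form
`∑ c_k t_k(p)` is at least `∑_{k even} c_k + T (∑ k c_k ^ 2) ^ (1 / 2)` for at least the proportion `exp (- 48 (T ^ 2 + 1))` and at
most the proportion `4 exp (- T ^ 2 / 8)` of the `p = p_j`, `j ∈ S`, `j < n`. -/
theorem result (g b : ℕ) (hb : 2 ≤ b) (δ : ℝ) (hδ : 0 < δ) (A B : ℕ) :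
    ∃ c : ℝ, 0 < c ∧ ∃ y₀ : ℕ, ∀ (K r : Fin (2 * g + 1) → ℕ) (y : ℕ), (∀ l, 2 * r l ≤ K l) → y₀ ≤ y →
    ∀ N : Fin (2 * g + 1) → ℕ, (∀ l, N l < b ^ K l) →
    ∀ f : Fin (2 * g + 1) → ℕ → ℕ, (∀ l j, f l j < b ∧ f l j ≠ digit b j (N l)) →
    ∀ W : ℕ → Set (Set ℕ), (∀ n, (W n).Finite ∧ (W n).ncard ≤ n ^ B) →
      (exceptions b K r N f
        (fun m => ∀ n : ℕ, y ≤ n → (∀ l, (n : ℝ) ≤ Real.exp (c * r l)) → Tails g δ (W n) n m) : ℝ) ≤
        1 / (y : ℝ) ^ A * ∏ l, ((K l).choose (r l) : ℝ) := by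
  classical
  obtain ⟨R, hRd⟩ : ∃ R : ℝ, R = (2 * ((2 * g + 1 : ℕ) : ℝ)) ^ (2 * g + 1) := ⟨_, rfl⟩
  have hR : 0 < R := by
    rw [hRd]
    positivity
  obtain ⟨η, hηd⟩ : ∃ η : ℝ, η = 1 / 4 / R := ⟨_, rfl⟩
  have hη : 0 < η := by
    rw [hηd]
    positivity
  obtain ⟨c, hc, y₀, h⟩ := Pool.Agent.NH22.ST.Emp.emp Pool.Agent.NH22.ST.All.t_WEIL Pool.Agent.NH22.ST.All.t_POLY g b hb δ hδ A B η hη
  refine ⟨c, hc, y₀ + 2, fun K r y hrK hy N hN f hf W hW => ?_⟩
  rw [exc_eq]
  refine h K r y hrK (by omega) N hN f hf W hW _ fun m hm n hyn hnr S hS hcard d hd1 a ha T hT hTg => ?_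
  have hd0' : (1 : ℝ) ≤ d := by exact_mod_cast hd1
  have hdg : d ≤ g := by
    have h1 : (d : ℝ) ≤ g := by nlinarith [sq_nonneg T, mul_nonneg (le_trans zero_le_one hd0') (sq_nonneg T)]
    exact_mod_cast h1
  have hn1 : (1 : ℝ) ≤ n := by
    have : 1 ≤ n := by omega
    exact_mod_cast this
  have hne : (below n S).Nonempty := by
    rw [← card_pos]
    have h1 : (0 : ℝ) < ((below n S).card : ℝ) := lt_of_lt_of_le (by positivity) hcard
    exact_mod_cast h1
  -- the normalisation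
  obtain ⟨V, hV⟩ : ∃ V : ℝ, V = ∑ k ∈ Icc 1 d, (k : ℝ) * a k ^ 2 := ⟨_, rfl⟩
  have hV0 : 0 < V := by
    obtain ⟨k, hk, hak⟩ := ha
    rw [hV]
    refine sum_pos' (fun k _ => by positivity) ⟨k, hk, ?_⟩
    have h1 : 1 ≤ k := (mem_Icc.1 hk).1
    have h2 : (0 : ℝ) < k := by exact_mod_cast h1
    positivity
  have hsV : 0 < Real.sqrt V := Real.sqrt_pos.2 hV0
  have hsV2 : Real.sqrt V ^ 2 = V := Real.sq_sqrt hV0.le
  obtain ⟨ξ, hξ⟩ : ∃ ξ : Fin (2 * g + 1) → ℝ, ξ = fun j : Fin (2 * g + 1) => if (j : ℕ) + 1 ≤ d then a ((j : ℕ) + 1) / Real.sqrt V else 0 := ⟨_, rfl⟩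
  have hξ0 : ∀ j : Fin (2 * g + 1), d < (j : ℕ) + 1 → ξ j = 0 := by
    intro j hj
    rw [hξ]
    exact if_neg (by omega)
  have hdM : d ≤ 2 * g + 1 := by omega
  have hξ1 : ∑ j : Fin (2 * g + 1), (((j : ℕ) : ℝ) + 1) * ξ j ^ 2 = 1 := by
    have h1 : ∑ j : Fin (2 * g + 1), (((j : ℕ) : ℝ) + 1) * ξ j ^ 2 = V / V := by
      rw [hV, sum_div, ← hV, sum_conv (2 * g + 1) d hdM (fun k => (k : ℝ) * a k ^ 2 / V)]
      refine sum_congr rfl fun j _ => ?_
      rw [hξ]
      show (((j : ℕ) : ℝ) + 1) * (if (j : ℕ) + 1 ≤ d then a ((j : ℕ) + 1) / Real.sqrt V else 0) ^ 2 =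
        if (j : ℕ) + 1 ≤ d then (((j : ℕ) + 1 : ℕ) : ℝ) * a ((j : ℕ) + 1) ^ 2 / V else 0
      by_cases hj : (j : ℕ) + 1 ≤ d
      · rw [if_pos hj, if_pos hj, div_pow, hsV2]
        push_cast
        ring
      · rw [if_neg hj, if_neg hj]
        ring
    rw [h1, div_self hV0.ne']
  -- the linear form
  obtain ⟨L, hL⟩ : ∃ L : ℕ → ℝ, L = fun i => ∑ j : Fin (2 * g + 1), ξ j *
      Pool.Agent.NH22.ST.Sep2.sf g (Nat.nth Nat.Prime i) m ((j : ℕ) + 1) -
      ∑ j : Fin (2 * g + 1), ξ j * Pool.Agent.NH22.ST.et ((j : ℕ) + 1) := ⟨_, rfl⟩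
  have hL1 : ∀ i, L i = (∑ k ∈ Icc 1 d, a k * trace g (Nat.nth Nat.Prime i) k m - ∑ k ∈ (Icc 1 d).filter Even, a k) / Real.sqrt V := by
    intro i
    rw [hL, _root_.sub_div, sum_div, sum_filter, sum_div,
      sum_conv (2 * g + 1) d hdM (fun k => a k * trace g (Nat.nth Nat.Prime i) k m / Real.sqrt V),
      sum_conv (2 * g + 1) d hdM (fun k => (if Even k then a k else 0) / Real.sqrt V)]
    show ∑ j : Fin (2 * g + 1), ξ j * Pool.Agent.NH22.ST.Sep2.sf g (Nat.nth Nat.Prime i) m ((j : ℕ) + 1) -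
      ∑ j : Fin (2 * g + 1), ξ j * Pool.Agent.NH22.ST.et ((j : ℕ) + 1) = _
    congr 1
    · refine sum_congr rfl fun j _ => ?_
      rw [hξ]
      show (if (j : ℕ) + 1 ≤ d then a ((j : ℕ) + 1) / Real.sqrt V else 0) * _ = _
      by_cases hj : (j : ℕ) + 1 ≤ d
      · rw [if_pos hj, if_pos hj, trace_eq g _ (Nat.prime_nth_prime i) m _ (Nat.succ_pos _)]
        ring
      · rw [if_neg hj, if_neg hj, zero_mul]
    · refine sum_congr rfl fun j _ => ?_
      rw [hξ]
      show (if (j : ℕ) + 1 ≤ d then a ((j : ℕ) + 1) / Real.sqrt V else 0) * Pool.Agent.NH22.ST.et ((j : ℕ) + 1) = _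
      unfold Pool.Agent.NH22.ST.et
      by_cases hj : (j : ℕ) + 1 ≤ d
      · rw [if_pos hj, if_pos hj]
        split_ifs <;> ring
      · rw [if_neg hj, if_neg hj, zero_mul]
  -- the number of the moments
  obtain ⟨Q, hQ⟩ : ∃ Q : ℕ, Q = (2 * g + 1) / d := ⟨_, rfl⟩
  have hQ1 : Q * d ≤ 2 * g + 1 := by
    rw [hQ]
    exact Nat.div_mul_le_self _ _
  have hQ2 : 2 * g + 1 < d * (Q + 1) := by
    rw [hQ]
    exact Nat.lt_mul_div_succ _ (by omega)
  have hTQ : 48 * T ^ 2 + 10 ≤ Q := by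
    have h1 : (2 : ℝ) * g + 1 < d * (Q + 1) := by exact_mod_cast hQ2
    have h2 : (d : ℝ) * (48 * (T ^ 2 + 1)) < d * (Q + 1) := by linarith
    have h3 : 48 * (T ^ 2 + 1) < (Q : ℝ) + 1 := lt_of_mul_lt_mul_left h2 (by linarith)
    linarith
  have key := Pool.Agent.NH22.ST.Tail.tail (below n S) L Q hne ?_ T hT hTQ
  · have e1 : (below n S).filter (fun j => ∑ k ∈ (Icc 1 d).filter Even, a k + T * Real.sqrt (∑ k ∈ Icc 1 d, k * a k ^ 2) ≤
        ∑ k ∈ Icc 1 d, a k * trace g (Nat.nth Nat.Prime j) k m) =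
        (below n S).filter (fun j => T ≤ L j) := by
      refine filter_congr fun j _ => ?_
      rw [hL1, le_div_iff₀ hsV, ← hV]
      constructor <;> intro h <;> linarith
    rw [e1]
    exact key
  · intro q hq
    have hqd : q * d ≤ 2 * g + 1 := le_trans (Nat.mul_le_mul_right d hq) hQ1
    have h1 := Pool.Agent.NH22.ST.Meso.mom_fin (2 * g + 1) (2 * g + 1) d (below n S)
      (fun i j => Pool.Agent.NH22.ST.Sep2.sf g (Nat.nth Nat.Prime i) m ((j : ℕ) + 1)) η hη.le
      (fun e he => hm n hyn hnr S hS hcard e he) ξ hξ0 hξ1 q hqd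
    have h2 : (2 * ((2 * g + 1 : ℕ) : ℝ)) ^ q * η ≤ R * η := by
      refine mul_le_mul_of_nonneg_right ?_ hη.le
      rw [hRd]
      refine pow_le_pow_right₀ ?_ ?_
      · push_cast
        linarith [(Nat.cast_nonneg g : (0 : ℝ) ≤ (g : ℝ))]
      · have h3 : q * 1 ≤ q * d := Nat.mul_le_mul_left _ hd1
        omega
    have h3 : R * η = 1 / 4 := by
      rw [hηd]
      field_simp
    rw [hL]
    exact (h1.trans h2).trans h3.le

end Pool.Agent.Results.MP_753a9c_nt.GaussianTails
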