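import Pool.Agent.NH22.BS.All

/-!
# The original product of Birch and Swinnerton-Dyer follows no law `A (log t) ^ ρ` up to a power of the height

Let `P(t)` be the product of `N_p / p` over the primes `p ≤ t` of good reduction of the curve `y ^ 2 = x ^ 3 + m 1 * x + m 0`.
According to the conjecture of Birch and Swinnerton-Dyer `P(t)` is asymptotically `A (log t) ^ r`. We consider the curves the
coefficients of which arise from arbitrary integers by changing a few digits at arbitrary places in an arbitrary base, and show
that for nearly all of them the asymptotic behaviour does not set in before `t` is a fixed power of the height: in every window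
`[x, x ^ (M ^ 2)]` below that power, `P(t)` is not within a given factor `e ^ κ` of `A (log t) ^ ρ`, for any real `ρ` and any
`A > 0`, except for a proportion `C κ / (log M) ^ (1 / 2)` of the curves, with an absolute constant `C`.

Proof. The second difference of `log P(t)` at `t = x, x ^ M, x ^ (M ^ 2)` is a sum of functions of the coefficients modulo the
primes in the window, with variance of order `log M`. Its moments over the changes of digits are asymptotically those for
independent random residues, and the inequality with the kernel of Fejer bounds the probability of an interval by the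
characteristic function.
-/

set_option autoImplicit false

namespace Pool.Agent.Results.MP_3283e1_nt.NoEarlyAsymptotic

open Finset

/-- The number of the points modulo `p` of the curve `y ^ 2 = x ^ 3 + m 1 * x + m 0`, with the point at infinity. -/
noncomputable def points (p : ℕ) (m : Fin 2 → ℕ) : ℕ :=
  Nat.card {P : ZMod p × ZMod p // P.2 ^ 2 = P.1 ^ 3 + (m 1 : ZMod p) * P.1 + (m 0 : ZMod p)} + 1

/-- `p` is a prime which does not divide `2 (4 a ^ 3 + 27 b ^ 2)`, `a = m 1`, `b = m 0`. -/
def Good (p : ℕ) (m : Fin 2 → ℕ) : Prop := p.Prime ∧ ¬ p ∣ 2 * (4 * m 1 ^ 3 + 27 * m 0 ^ 2)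

open Classical in
/-- The product of Birch and Swinnerton-Dyer: the product of `N_p / p` over the good primes `p ≤ t`. -/
noncomputable def product (m : Fin 2 → ℕ) (t : ℕ) : ℝ :=
  ∏ p ∈ (range (t + 1)).filter (fun p => Good p m), (points p m : ℝ) / p

/-- There are a real `ρ` and `A > 0` such that in the whole window `[x, x ^ (M ^ 2)]` the product agrees with `A (log t) ^ ρ` up
to a factor between `e ^ (-κ)` and `e ^ κ`. -/
def FollowsLaw (x M : ℕ) (κ : ℝ) (m : Fin 2 → ℕ) : Prop :=
  ∃ ρ A : ℝ, 0 < A ∧ ∀ t : ℕ, x ≤ t → t ≤ x ^ (M ^ 2) →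
    Real.exp (-κ) * (A * Real.log t ^ ρ) ≤ product m t ∧ product m t ≤ Real.exp κ * (A * Real.log t ^ ρ)

/-- The digit number `i` (counted from the right, beginning with `0`) of `n` in base `b`. -/
def digit (b i n : ℕ) : ℕ := n / b ^ i % b

/-- The number which arises from the number `N` with at most `K` digits in base `b`, if for every `i ∈ S`
the digit number `i` is replaced by `f i`. -/
def change (b K N : ℕ) (f : ℕ → ℕ) (S : Finset ℕ) : ℕ :=
  ∑ i ∈ range K, (if i ∈ S then f i else digit b i N) * b ^ i

open Classical in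
/-- The number of the choices of `r l` of `K l` positions for all `l` for which the vector of the numbers obtained by
changing the digits of the `N l` at the chosen positions (according to `f l`) does not have the property `E`. -/
noncomputable def exceptions {d : ℕ} (b : ℕ) (K r N : Fin d → ℕ) (f : Fin d → ℕ → ℕ) (E : (Fin d → ℕ) → Prop) : ℕ :=
  ((Fintype.piFinset (fun l => powersetCard (r l) (range (K l)))).filter
    (fun S => ¬ E (fun l => change b (K l) (N l) (f l) (S l)))).card

lemma product_eq (m : Fin 2 → ℕ) (t : ℕ) : product m t = Pool.Agent.NH22.BS.PP m t := by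
  unfold product Pool.Agent.NH22.BS.PP
  refine prod_congr rfl fun p _ => ?_
  unfold points Pool.Agent.NH22.BS.pts
  push_cast
  rfl

lemma product_pos (m : Fin 2 → ℕ) (t : ℕ) : 0 < product m t := by
  classical
  unfold product
  refine prod_pos fun p hp => ?_
  replace hp := mem_filter.1 hp
  have h1 : (0 : ℝ) < p := by exact_mod_cast hp.2.1.pos
  have h2 : (0 : ℝ) < points p m := by
    unfold points
    exact_mod_cast Nat.succ_pos _
  positivity

open Classical in
lemma exceptions_le {d : ℕ} (b : ℕ) (K r N : Fin d → ℕ) (f : Fin d → ℕ → ℕ) (E F : (Fin d → ℕ) → Prop) (h : ∀ m, F m → E m) :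
    exceptions b K r N f E ≤ Pool.Agent.Y57.FD.exceptions b K r N f F := by
  unfold exceptions Pool.Agent.Y57.FD.exceptions
  apply card_le_card
  intro S hS
  rw [mem_filter] at hS ⊢
  exact ⟨hS.1, fun hno => hS.2 (h _ hno)⟩

/-- There is an absolute constant `C` such that for every base `b ≥ 2`, every `M ≥ 2` and every `κ ≥ 1` there are `c > 0` and `x₀`
with the following property. Let `r l`, `K l` (`l = 0, 1`) and `x` be integers with `2 r l ≤ K l` and `x₀ ≤ x ≤ exp (c r l)`. Let
`0 ≤ N l < b ^ K l` be arbitrary integers and prescribe for every position `j` a digit `f l j` different from the digit of `N l` in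
base `b`. Choose `r l` of the `K l` positions and replace the digits of `N l` at these positions; this gives a number `m l`. For all
but at most the proportion `C κ / (log M) ^ (1 / 2)` of the choices the product `P(t)` of Birch and Swinnerton-Dyer of the curve
`y ^ 2 = x ^ 3 + m 1 * x + m 0` does not agree with any `A (log t) ^ ρ`, up to a factor `e ^ κ`, in the window
`x ≤ t ≤ x ^ (M ^ 2)`. -/
theorem result : ∃ C : ℝ, 0 < C ∧ ∀ (b M : ℕ) (κ : ℝ), 2 ≤ b → 2 ≤ M → 1 ≤ κ → ∃ c : ℝ, 0 < c ∧ ∃ x₀ : ℕ,
    ∀ (K r : Fin 2 → ℕ) (x : ℕ), (∀ l, 2 * r l ≤ K l) → x₀ ≤ x → (∀ l, (x : ℝ) ≤ Real.exp (c * r l)) →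
    ∀ N : Fin 2 → ℕ, (∀ l, N l < b ^ K l) → ∀ f : Fin 2 → ℕ → ℕ, (∀ l j, f l j < b ∧ f l j ≠ digit b j (N l)) →
      (exceptions b K r N f (fun m => ¬ FollowsLaw x M κ m) : ℝ) ≤
        C * κ / Real.sqrt (Real.log M) * ∏ l, ((K l).choose (r l) : ℝ) := by
  classical
  obtain ⟨C, hC, h⟩ := Pool.Agent.NH22.BS.All.main
  refine ⟨C, hC, fun b M κ hb hM hκ => ?_⟩
  obtain ⟨c, hc, x₀, h⟩ := h b M κ hb hM hκ
  refine ⟨c, hc, x₀ + 3, fun K r x hrK hx hxr N hN f hf => ?_⟩
  refine le_trans ?_ (h K r x hrK (by omega) hxr N hN f hf)
  have hss : exceptions b K r N f (fun m => ¬ FollowsLaw x M κ m) ≤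
      Pool.Agent.Y57.FD.exceptions b K r N f (Pool.Agent.NH22.BS.F3.NoLaw x M κ) := by
    apply exceptions_le
    intro m hno
    rintro ⟨ρ, A, hA, hlaw⟩
    obtain ⟨t, ht1, ht2, ht3⟩ := hno ρ (Real.log A)
    obtain ⟨h1, h2⟩ := hlaw t ht1 ht2
    have ht : (3 : ℝ) ≤ t := by exact_mod_cast (by omega : 3 ≤ t)
    have hlog : 0 < Real.log t := Real.log_pos (by linarith)
    have hpos := product_pos m t
    have hrp : 0 < Real.log t ^ ρ := Real.rpow_pos_of_pos hlog ρ
    have hlA : Real.log (A * Real.log t ^ ρ) = Real.log A + ρ * Real.log (Real.log t) := by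
      rw [Real.log_mul hA.ne' hrp.ne', Real.log_rpow hlog]
    have h3 : -κ + (Real.log A + ρ * Real.log (Real.log t)) ≤ Real.log (product m t) := by
      have := Real.log_le_log (by positivity) h1
      rwa [Real.log_mul (Real.exp_pos _).ne' (by positivity), Real.log_exp, hlA] at this
    have h4 : Real.log (product m t) ≤ κ + (Real.log A + ρ * Real.log (Real.log t)) := by
      have := Real.log_le_log hpos h2
      rwa [Real.log_mul (Real.exp_pos _).ne' (by positivity), Real.log_exp, hlA] at this
    rw [product_eq] at h3 h4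
    have h5 : |Real.log (Pool.Agent.NH22.BS.PP m t) - ρ * Real.log (Real.log t) - Real.log A| ≤ κ := by
      rw [abs_le]
      constructor <;> linarith
    exact absurd ht3 (not_lt.2 h5)
  exact_mod_cast hss

end Pool.Agent.Results.MP_3283e1_nt.NoEarlyAsymptotic
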